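import Pool.Agent.Helper62.CS.Stmts

/-!
# UB: `Lset A` is in the second level relative to `A`
-/

set_option autoImplicit false

namespace Pool.Agent.Helper61.CS

open Pool.Agent.Helper62.CS
open scoped Classical

/-- accepting and rejecting lines are fixed -/
theorem step_accept (P : Prog) (O : Lang) (c : Cfg) (h : P[c.pc]? = some Instr.accept) :
    step P O c = c := by
  unfold step stepA
  rw [h]

theorem step_reject (P : Prog) (O : Lang) (c : Cfg) (h : P[c.pc]? = some Instr.reject) :
    step P O c = c := by
  unfold step stepA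
  rw [h]

theorem iter_fix {α : Type} (f : α → α) (c : α) (t T : ℕ) (h : f (f^[t] c) = f^[t] c)
    (hT : t ≤ T) : f^[T] c = f^[t] c := by
  induction T, hT using Nat.le_induction with
  | base => rfl
  | succ n hn ih => rw [Function.iterate_succ_apply', ih, h]

/-- a one-query program -/
theorem one_query (a b : ℕ) (P : Prog) (h0 : P[0]? = some (Instr.query 0 a b))
    (ha : P[a]? = some Instr.accept ∨ P[a]? = some Instr.reject)
    (hb : P[b]? = some Instr.accept ∨ P[b]? = some Instr.reject) (O : Lang) (inp : List Str)
    (T : ℕ) (hT : 1 ≤ T) :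
    (inp.getD 0 [] ∈ O → (Accepts P O inp T ↔ P[b]? = some Instr.accept)) ∧
      (inp.getD 0 [] ∉ O → (Accepts P O inp T ↔ P[a]? = some Instr.accept)) := by
  have hstep : step P O (init inp) = ⟨if inp.getD 0 [] ∈ O then b else a, (init inp).st⟩ := by
    unfold step stepA qstr
    have h1 : P[(init inp).pc]? = some (Instr.query 0 a b) := h0
    rw [h1]
    show (⟨if decide (inp.getD 0 [] ∈ O) then b else a, (init inp).st⟩ : Cfg) = _
    by_cases h : inp.getD 0 [] ∈ O
    · simp
    · simp
  have hfix : step P O (step P O (init inp)) = step P O (init inp) := by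
    rw [hstep]
    by_cases h : inp.getD 0 [] ∈ O
    · rw [if_pos h]
      rcases hb with hb | hb
      · exact step_accept P O _ hb
      · exact step_reject P O _ hb
    · rw [if_neg h]
      rcases ha with ha | ha
      · exact step_accept P O _ ha
      · exact step_reject P O _ ha
  have hit : (step P O)^[T] (init inp) = step P O (init inp) := iter_fix (step P O) _ 1 T hfix hT
  unfold Accepts
  rw [hit, hstep]
  refine ⟨fun h => ?_, fun h => ?_⟩
  · rw [if_pos h]
  · rw [if_neg h]

/-- the program for the complement of `Lset A` -/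
def progB : Prog :=
  [ Instr.pop 0 5 1 1,       -- 0
    Instr.pop 1 8 2 3,       -- 1
    Instr.push 2 false 0,    -- 2
    Instr.push 2 true 0,     -- 3
    Instr.reject,            -- 4
    Instr.pop 1 6 8 8,       -- 5
    Instr.push 2 false 7,    -- 6
    Instr.query 2 9 8,       -- 7
    Instr.reject,            -- 8
    Instr.accept ]           -- 9

section

variable (O : Lang) (s : ℕ → Str)

theorem b0_nil (h : s 0 = []) : step progB O ⟨0, s⟩ = ⟨5, s⟩ := by
  simp [step, stepA, progB, h]

theorem b0_cons (b : Bool) (l : Str) (h : s 0 = b :: l) :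
    step progB O ⟨0, s⟩ = ⟨1, Function.update s 0 l⟩ := by
  cases b <;> simp [step, stepA, progB, h]

theorem b1_nil (h : s 1 = []) : step progB O ⟨1, s⟩ = ⟨8, s⟩ := by
  simp [step, stepA, progB, h]

theorem b1_cons (b : Bool) (l : Str) (h : s 1 = b :: l) :
    step progB O (step progB O ⟨1, s⟩) =
      ⟨0, Function.update (Function.update s 1 l) 2 (b :: s 2)⟩ := by
  cases b <;> simp [step, stepA, progB, h]

theorem b5_nil (h : s 1 = []) : step progB O ⟨5, s⟩ = ⟨6, s⟩ := by
  simp [step, stepA, progB, h]

theorem b5_cons (b : Bool) (l : Str) (h : s 1 = b :: l) : (step progB O ⟨5, s⟩).pc = 8 := by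
  cases b <;> simp [step, stepA, progB, h]

theorem b6 : step progB O ⟨6, s⟩ = ⟨7, Function.update s 2 (false :: s 2)⟩ := by
  simp [step, stepA, progB]

theorem b7_yes (h : s 2 ∈ O) : step progB O ⟨7, s⟩ = ⟨8, s⟩ := by
  simp [step, stepA, progB, qstr, h]

theorem b7_no (h : s 2 ∉ O) : step progB O ⟨7, s⟩ = ⟨9, s⟩ := by
  simp [step, stepA, progB, qstr, h]

end

/-- the loop, equal lengths -/
theorem run_eq (O : Lang) (z : Str) : ∀ (s : ℕ → Str), s 0 = z → (s 1).length = z.length →
    ∃ s' : ℕ → Str, (step progB O)^[3 * z.length] ⟨0, s⟩ = ⟨0, s'⟩ ∧ s' 0 = [] ∧ s' 1 = [] ∧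
      s' 2 = (s 1).reverse ++ s 2 := by
  induction z with
  | nil =>
    intro s h0 h1
    have h2 : s 1 = [] := List.length_eq_zero_iff.1 h1
    exact ⟨s, rfl, h0, h2, by rw [h2]; rfl⟩
  | cons b z ih =>
    intro s h0 h1
    obtain ⟨b', y, hy⟩ : ∃ b' y, s 1 = b' :: y := by
      cases h : s 1 with
      | nil => rw [h] at h1; simp at h1
      | cons b' y => exact ⟨b', y, rfl⟩
    set s1 := Function.update s 0 z with hs1
    set s2 := Function.update (Function.update s1 1 y) 2 (b' :: s1 2) with hs2
    have e1 : s1 1 = b' :: y := by rw [hs1, Function.update_of_ne (by decide)]; exact hy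
    have e2 : s1 2 = s 2 := by rw [hs1, Function.update_of_ne (by decide)]
    have e3 : s2 0 = z := by
      rw [hs2, Function.update_of_ne (by decide), Function.update_of_ne (by decide), hs1,
        Function.update_self]
    have e4 : s2 1 = y := by
      rw [hs2, Function.update_of_ne (by decide), Function.update_self]
    have e5 : s2 2 = b' :: s 2 := by rw [hs2, Function.update_self, e2]
    have hlen : (s2 1).length = z.length := by
      rw [e4]
      rw [hy] at h1
      simpa using h1
    obtain ⟨s', h3, h4, h5, h6⟩ := ih s2 e3 hlen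
    refine ⟨s', ?_, h4, h5, ?_⟩
    · have e6 : (step progB O)^[3] ⟨0, s⟩ = ⟨0, s2⟩ := by
        show step progB O (step progB O (step progB O ⟨0, s⟩)) = _
        rw [b0_cons O s b z h0, b1_cons O s1 b' y e1]
      rw [List.length_cons, show 3 * (z.length + 1) = 3 * z.length + 3 by ring,
        Function.iterate_add_apply, e6, h3]
    · rw [h6, e4, e5, hy]
      simp

/-- the loop, different lengths -/
theorem run_ne (O : Lang) (z : Str) : ∀ (s : ℕ → Str), s 0 = z → (s 1).length ≠ z.length →
    ∃ t ≤ 3 * z.length + 2, ((step progB O)^[t] ⟨0, s⟩).pc = 8 := by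
  induction z with
  | nil =>
    intro s h0 h1
    obtain ⟨b', y, hy⟩ : ∃ b' y, s 1 = b' :: y := by
      cases h : s 1 with
      | nil => rw [h] at h1; simp at h1
      | cons b' y => exact ⟨b', y, rfl⟩
    refine ⟨2, by simp, ?_⟩
    show (step progB O (step progB O ⟨0, s⟩)).pc = 8
    rw [b0_nil O s h0]
    exact b5_cons O s b' y hy
  | cons b z ih =>
    intro s h0 h1
    cases hy : s 1 with
    | nil =>
      refine ⟨2, by simp, ?_⟩
      show (step progB O (step progB O ⟨0, s⟩)).pc = 8
      rw [b0_cons O s b z h0, b1_nil O _ (by rw [Function.update_of_ne (by decide)]; exact hy)]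
    | cons b' y =>
      set s1 := Function.update s 0 z with hs1
      set s2 := Function.update (Function.update s1 1 y) 2 (b' :: s1 2) with hs2
      have e1 : s1 1 = b' :: y := by rw [hs1, Function.update_of_ne (by decide)]; exact hy
      have e3 : s2 0 = z := by
        rw [hs2, Function.update_of_ne (by decide), Function.update_of_ne (by decide), hs1,
          Function.update_self]
      have e4 : s2 1 = y := by
        rw [hs2, Function.update_of_ne (by decide), Function.update_self]
      have hlen : (s2 1).length ≠ z.length := by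
        rw [e4]
        rw [hy] at h1
        simpa using h1
      obtain ⟨t, ht, h3⟩ := ih s2 e3 hlen
      refine ⟨t + 3, by rw [List.length_cons]; omega, ?_⟩
      have e6 : (step progB O)^[3] ⟨0, s⟩ = ⟨0, s2⟩ := by
        show step progB O (step progB O (step progB O ⟨0, s⟩)) = _
        rw [b0_cons O s b z h0, b1_cons O s1 b' y e1]
      rw [Function.iterate_add_apply, e6, h3]

theorem accepts_B (O : Lang) (z y : Str) (T : ℕ) (hT : 3 * z.length + 4 ≤ T) :
    Accepts progB O [z, y] T ↔ (y.length = z.length ∧ false :: y.reverse ∉ O) := by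
  by_cases hl : y.length = z.length
  · obtain ⟨s', h1, h2, h3, h4⟩ := run_eq O z (init [z, y]).st rfl hl
    have h4' : s' 2 = y.reverse := by
      rw [h4]
      show y.reverse ++ [] = y.reverse
      rw [List.append_nil]
    have hrun : (step progB O)^[3 * z.length + 4] (init [z, y]) =
        ⟨if false :: y.reverse ∈ O then 8 else 9, Function.update s' 2 (false :: s' 2)⟩ := by
      rw [show 3 * z.length + 4 = 4 + 3 * z.length by ring, Function.iterate_add_apply]
      have h5 : (step progB O)^[3 * z.length] (init [z, y]) = ⟨0, s'⟩ := h1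
      rw [h5]
      show step progB O (step progB O (step progB O (step progB O ⟨0, s'⟩))) = _
      rw [b0_nil O s' h2, b5_nil O s' h3, b6 O s']
      have h6 : (Function.update s' 2 (false :: s' 2)) 2 = false :: y.reverse := by
        rw [Function.update_self, h4']
      by_cases h7 : false :: y.reverse ∈ O
      · rw [b7_yes O _ (by rw [h6]; exact h7), if_pos h7]
      · rw [b7_no O _ (by rw [h6]; exact h7), if_neg h7]
    have hfix : step progB O ((step progB O)^[3 * z.length + 4] (init [z, y])) =
        (step progB O)^[3 * z.length + 4] (init [z, y]) := by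
      rw [hrun]
      by_cases h7 : false :: y.reverse ∈ O
      · rw [if_pos h7]; exact step_reject _ _ _ rfl
      · rw [if_neg h7]; exact step_accept _ _ _ rfl
    unfold Accepts
    rw [iter_fix _ _ _ T hfix hT, hrun]
    by_cases h7 : false :: y.reverse ∈ O
    · rw [if_pos h7]
      refine ⟨fun h => ?_, fun h => absurd h7 h.2⟩
      have h8 : some Instr.reject = some Instr.accept := h
      simp at h8
    · rw [if_neg h7]
      exact ⟨fun _ => ⟨hl, h7⟩, fun _ => rfl⟩
  · obtain ⟨t, ht, h1⟩ := run_ne O z (init [z, y]).st rfl hl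
    have hrej : progB[((step progB O)^[t] (init [z, y])).pc]? = some Instr.reject := by
      have h2 : ((step progB O)^[t] (init [z, y])).pc = 8 := h1
      rw [h2]
      rfl
    have hfix := step_reject progB O _ hrej
    unfold Accepts
    rw [iter_fix _ _ t T hfix (by omega), hrej]
    refine ⟨fun h => ?_, fun h => absurd h.1 hl⟩
    simp at h

theorem st_UB : ST_UB := by
  intro A O
  let C : Lang := join A O
  let B : Lang := (Lset A)ᶜ
  have hC : C ∈ PClass (join A O) := by
    refine ⟨[Instr.query 0 2 1, Instr.accept, Instr.reject], 1, fun x => ?_⟩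
    have h := one_query 2 1 [Instr.query 0 2 1, Instr.accept, Instr.reject] rfl (Or.inr rfl)
      (Or.inl rfl) (join A O) [x] (x.length ^ 1 + 1) (by omega)
    by_cases hx : x ∈ join A O
    · exact ⟨fun _ => (h.1 hx).2 rfl, fun _ => hx⟩
    · refine ⟨fun h1 => absurd h1 hx, fun h1 => ?_⟩
      have h2 := (h.2 hx).1 h1
      simp at h2
  have hB : B ∈ NPClass C := by
    refine ⟨progB, 7, fun z => ?_⟩
    have hT : 3 * z.length + 4 ≤ z.length ^ 7 + 7 := by
      rcases Nat.lt_or_ge z.length 2 with h | h
      · interval_cases z.length <;> norm_num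
      · have h1 : z.length * 2 ^ 6 ≤ z.length * z.length ^ 6 :=
          Nat.mul_le_mul_left _ (Nat.pow_le_pow_left h 6)
        have h2 : z.length ^ 7 = z.length * z.length ^ 6 := by ring
        omega
    have hmem : z ∈ B ↔ ∃ q : Str, q.length = z.length ∧ q ∉ A := by
      show ¬ (∀ q : Str, q.length = z.length → q ∈ A) ↔ _
      push Not
      rfl
    have hjoin : ∀ q : Str, false :: q ∈ C ↔ q ∈ A := by
      intro q
      constructor
      · rintro ⟨y, ⟨h1, h2⟩ | ⟨h1, h2⟩⟩
        · rwa [(List.cons.inj h1).2]
        · exact absurd (List.cons.inj h1).1 (by decide)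
      · intro h
        exact ⟨q, Or.inl ⟨rfl, h⟩⟩
    rw [hmem]
    constructor
    · rintro ⟨q, hq, hqA⟩
      refine ⟨q.reverse, ?_, ?_⟩
      · rw [List.length_reverse, hq]
        omega
      · rw [accepts_B C z q.reverse _ hT, List.length_reverse, List.reverse_reverse, hjoin]
        exact ⟨hq, hqA⟩
    · rintro ⟨y, -, hy⟩
      rw [accepts_B C z y _ hT, hjoin] at hy
      exact ⟨y.reverse, by rw [List.length_reverse]; exact hy.1, hy.2⟩
  have hL : Lset A ∈ NPClass B := by
    refine ⟨[Instr.query 0 1 2, Instr.accept, Instr.reject], 1, fun x => ?_⟩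
    have h := fun y : Str => one_query 1 2 [Instr.query 0 1 2, Instr.accept, Instr.reject] rfl
      (Or.inl rfl) (Or.inr rfl) B [x, y] (x.length ^ 1 + 1) (by omega)
    constructor
    · intro hx
      have hxB : x ∉ B := fun h1 => h1 hx
      exact ⟨[], by simp, ((h []).2 hxB).2 rfl⟩
    · rintro ⟨y, -, hy⟩
      by_contra hx
      have h2 := ((h y).1 hx).1 hy
      simp at h2
  exact ⟨B, ⟨C, hC, hB⟩, hL⟩

end Pool.Agent.Helper61.CS
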